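import Pool.Agent.Q265.AssFinal

/-!
# MP_6b2627_an, Q1: the answer is negative

For `ω t = √t` (so that `η = 1/2`) the functions `f ∈ C^ω[0,1]` near
`∑ 4^{-k} dist (16^k x, ℤ)` oscillate by at least a constant times `√h` on every interval of
length `h`; hence their graphs have Assouad dimension at most a constant `d < 2`, and the
formula for the Assouad spectrum fails for all of them at `θ = η` and at all `θ < η` near `η`.

The definitions (moduli, the normed space `C^ω[0,1]`, graphs, packing numbers, the Assouad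
spectrum) are in `Pool.Agent.Q265.AssDefs`.
-/

open Set Filter Topology

namespace Pool.Agent.Results.MP_6b2627_an.OscillatingFunctions

open Q265.Ass

/-- **Q1 is false for `ω t = √t`.** `ω` is a concave modulus of continuity and
`η = lim log (ω t) / log t = 1/2 < 1`; there are a nonempty open set `V` of the Banach space
`C^ω[0,1]` and `0 < θ₀ < η` such that `dim_A^θ G_f < 2 - (η - θ) / (1 - θ)` for all `f ∈ V`
and all `θ₀ < θ ≤ η`. In particular the set of the `f` with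
`dim_A^θ G_f = 2 - (η - θ) / (1 - θ)` for all `0 < θ ≤ η` is not residual. -/
theorem result :
    ∃ (ω : Modulus) (η : ℝ), (∀ t, ω.toFun t = √t) ∧ ConcaveOn ℝ (Icc (0 : ℝ) 1) ω.toFun ∧
      Tendsto (fun t => Real.log (ω.toFun t) / Real.log t) (𝓝[>] 0) (𝓝 η) ∧ η < 1 ∧
      (∃ V : Set (COmega ω), IsOpen V ∧ V.Nonempty ∧ ∃ θ₀ : ℝ, 0 < θ₀ ∧ θ₀ < η ∧
        ∀ f ∈ V, ∀ θ : ℝ, θ₀ < θ → θ ≤ η →
          dimSpec θ (graph (fun x => f x)) < 2 - (η - θ) / (1 - θ)) ∧
      {f : COmega ω | ∀ θ ∈ Ioc 0 η,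
        dimSpec θ (graph (fun x => f x)) = 2 - (η - θ) / (1 - θ)} ∉ residual (COmega ω) := by
  have h3 : bet 256 < 2 := bet_lt_two (by norm_num)
  set θ₀ : ℝ := max (1 / 4) (1 / 2 - (2 - bet 256) / 2) with hθ₀
  have hθpos : 0 < θ₀ := lt_of_lt_of_le (by norm_num) (le_max_left _ _)
  have hθlt : θ₀ < 1 / 2 := max_lt (by norm_num) (by linarith)
  have h2 : ∀ f ∈ U, ∀ θ : ℝ, θ₀ < θ → θ ≤ 1 / 2 →
      dimSpec θ (graph (fun x => f x)) < 2 - (1 / 2 - θ) / (1 - θ) := by
    intro f hf θ h4 h5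
    refine lt_of_le_of_lt (dimSpec_le (U_osc hf) (by linarith : θ < 1)) ?_
    have h6 : 1 / 2 - (2 - bet 256) / 2 < θ := lt_of_le_of_lt (le_max_right _ _) h4
    have h7 : (1 / 2 - θ) / (1 - θ) ≤ 2 * (1 / 2 - θ) := by
      rw [div_le_iff₀ (by linarith)]
      nlinarith
    linarith
  refine ⟨sqrtMod, 1 / 2, fun t => rfl, sqrt_concave, sqrt_log_tendsto, by norm_num,
    ⟨U, U_open, U_nonempty, θ₀, hθpos, hθlt, h2⟩, ?_⟩
  refine COmega.not_residual U_open U_nonempty ?_
  rw [Set.disjoint_left]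
  intro f hf hf2
  have h4 := hf2 (1 / 2) ⟨by norm_num, le_rfl⟩
  have h5 := h2 f hf (1 / 2) hθlt le_rfl
  rw [h4] at h5
  exact lt_irrefl _ h5

end Pool.Agent.Results.MP_6b2627_an.OscillatingFunctions
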